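import Mathlib

namespace Pool.Agent.Results.MP_c90a8c_co.Recurrence

open Finset

variable {n : ℕ}

def area (γ : Fin n → ℕ) : ℕ := ∑ i, γ i - (univ.filter (fun i => 0 < γ i)).card

def dinv (γ : Fin n → ℕ) (π : Fin n → ℕ+) : ℕ :=
  (univ.filter (fun p : Fin n × Fin n => p.1 < p.2 ∧ γ p.1 = γ p.2 ∧ π p.2 < π p.1)).card +
    (univ.filter (fun p : Fin n × Fin n => p.1 < p.2 ∧ γ p.2 = γ p.1 + 1 ∧ π p.1 < π p.2)).card

/-- The exponent vector of the monomial `x ^ π`. -/
noncomputable def expo (π : Fin n → ℕ+) : ℕ+ →₀ ℕ := ∑ i, Finsupp.single (π i) 1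

/-- The pairs `(γ, π)` contributing the monomial `q ^ a t ^ d x ^ m` to `L v`. -/
def terms (v : Fin n → Bool) (a d : ℕ) (m : ℕ+ →₀ ℕ) : Set ((Fin n → ℕ) × (Fin n → ℕ+)) :=
  {p | (∀ i, p.1 i = 0 ↔ v i = true) ∧ area p.1 = a ∧ dinv p.1 p.2 = d ∧ expo p.2 = m}

/-- The link symmetric function: a power series in `x` over `ℤ[[q, t]]`, `q = X 0`, `t = X 1`. -/
noncomputable def L (v : Fin n → Bool) : MvPowerSeries ℕ+ (MvPowerSeries (Fin 2) ℤ) :=
  fun m e => ((terms v (e 0) (e 1) m).ncard : ℤ)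

lemma area_eq (γ : Fin n → ℕ) : area γ = ∑ i, (γ i - 1) := by
  have : ∑ i, γ i = ∑ i, (γ i - 1) + (univ.filter (fun i => 0 < γ i)).card := by
    rw [card_filter, ← sum_add_distrib]
    refine sum_congr rfl fun i _ => ?_
    split_ifs <;> omega
  rw [area, this]; omega

lemma terms_fin (v : Fin n → Bool) (a d : ℕ) (m : ℕ+ →₀ ℕ) : (terms v a d m).Finite := by
  refine ((Set.Finite.pi' (fun _ : Fin n => Set.finite_Iic (a + 1))).prod
    (Set.Finite.pi' (fun _ : Fin n => m.support.finite_toSet))).subset ?_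
  rintro p ⟨-, h1, -, h2⟩
  refine ⟨fun i => ?_, fun i => ?_⟩
  · have := single_le_sum (f := fun i => p.1 i - 1) (fun _ _ => Nat.zero_le _) (mem_univ i)
    rw [← area_eq, h1] at this
    simp only [Set.mem_Iic]; omega
  · rw [← h2]
    simp only [expo, mem_coe, Finsupp.mem_support_iff, Finsupp.finset_sum_apply]
    intro h
    simpa using (sum_eq_zero_iff.1 h) i (mem_univ i)

def w (a : ℕ) (p : ℕ+) (b : ℕ) (r : ℕ+) : ℕ :=
  (if a = b ∧ r < p then 1 else 0) + if b = a + 1 ∧ p < r then 1 else 0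

lemma dinv_eq (γ : Fin n → ℕ) (π : Fin n → ℕ+) :
    dinv γ π = ∑ i, ∑ j, if i < j then w (γ i) (π i) (γ j) (π j) else 0 := by
  rw [dinv, card_filter, card_filter, ← sum_add_distrib, ← univ_product_univ, sum_product]
  refine sum_congr rfl fun i _ => sum_congr rfl fun j _ => ?_
  by_cases h : i < j <;> simp [h, w]

def rot (p : (Fin (n + 1) → ℕ) × (Fin (n + 1) → ℕ+)) : (Fin (n + 1) → ℕ) × (Fin (n + 1) → ℕ+) :=
  (Fin.snoc (α := fun _ => ℕ) (Fin.tail p.1) (p.1 0 + 1),
    Fin.snoc (α := fun _ => ℕ+) (Fin.tail p.2) (p.2 0))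

lemma rot_inj : Function.Injective (rot (n := n)) := by
  rintro ⟨γ, π⟩ ⟨γ', π'⟩ h
  simp only [rot, Prod.mk.injEq, Fin.snoc_inj] at h
  refine Prod.ext ?_ ?_
  · rw [← Fin.cons_self_tail γ, ← Fin.cons_self_tail γ', h.1.1, Nat.succ_injective h.1.2]
  · rw [← Fin.cons_self_tail π, ← Fin.cons_self_tail π', h.2.1, h.2.2]

lemma dinv_rot (p : (Fin (n + 1) → ℕ) × (Fin (n + 1) → ℕ+)) :
    dinv (rot p).1 (rot p).2 = dinv p.1 p.2 := by
  rw [dinv_eq, dinv_eq, Fin.sum_univ_castSucc, Fin.sum_univ_succ (fun i => ∑ j, _)]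
  simp only [Fin.sum_univ_castSucc (f := fun j => if _ < j then w _ _ ((rot p).1 j) _ else 0),
    Fin.sum_univ_succ (f := fun j => if _ < j then w _ _ (p.1 j) _ else 0)]
  have hw : ∀ a b p r, w a p (b + 1) r = w b r a p := by
    intro a b p r
    simp only [w, add_left_inj]
    rw [add_comm]
  simp [rot, sum_add_distrib, Fin.tail, hw, (Fin.castSucc_lt_last _).not_gt]
  rw [add_comm]

lemma area_rot (p : (Fin (n + 1) → ℕ) × (Fin (n + 1) → ℕ+)) :
    area (rot p).1 = area p.1 + if p.1 0 = 0 then 0 else 1 := by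
  rw [area_eq, area_eq, Fin.sum_univ_castSucc, Fin.sum_univ_succ]
  simp only [rot, Fin.snoc_castSucc, Fin.snoc_last, Fin.tail]
  split_ifs <;> omega

lemma expo_rot (p : (Fin (n + 1) → ℕ) × (Fin (n + 1) → ℕ+)) : expo (rot p).2 = expo p.2 := by
  rw [expo, expo, Fin.sum_univ_castSucc, Fin.sum_univ_succ]
  simp [rot, Fin.tail, add_comm]

lemma terms_eq (v : Fin n → Bool) (a d : ℕ) (m : ℕ+ →₀ ℕ) :
    terms (Fin.snoc (α := fun _ => Bool) v false) a d m = rot '' (terms (Fin.cons true v) a d m ∪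
      if a = 0 then ∅ else terms (Fin.cons false v) (a - 1) d m) := by
  have key : ∀ p, rot p ∈ terms (Fin.snoc (α := fun _ => Bool) v false) a d m ↔
      p ∈ (terms (Fin.cons true v) a d m ∪
        if a = 0 then ∅ else terms (Fin.cons false v) (a - 1) d m) := by
    intro p
    simp only [terms, Set.mem_setOf_eq, dinv_rot, area_rot, expo_rot, Set.mem_union]
    rw [Fin.forall_fin_succ']
    simp only [rot, Fin.snoc_castSucc, Fin.snoc_last, Fin.tail]
    by_cases h : p.1 0 = 0 <;> rcases a with _ | a <;> simp [h, Fin.forall_fin_succ]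
  ext p
  constructor
  · intro hp
    have h : p.1 (Fin.last n) ≠ 0 := by simpa using hp.1 (Fin.last n)
    have e : rot (Fin.cons (p.1 (Fin.last n) - 1) (Fin.init p.1),
        Fin.cons (p.2 (Fin.last n)) (Fin.init p.2)) = p := by
      simp only [rot, Fin.tail_cons, Fin.cons_zero]
      rw [Nat.sub_add_cancel (by omega), Fin.snoc_init_self, Fin.snoc_init_self]
    exact ⟨_, (key _).1 (e.symm ▸ hp), e⟩
  · rintro ⟨p, hp, rfl⟩
    exact (key p).2 hp

theorem result : (∀ (n : ℕ) (v : Fin n → Bool) (a d : ℕ) (m : ℕ+ →₀ ℕ), (terms v a d m).Finite) ∧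
    ∀ (n : ℕ) (v : Fin n → Bool), L (Fin.snoc (α := fun _ => Bool) v false) =
      L (Fin.cons true v) + MvPowerSeries.C (MvPowerSeries.X 0) * L (Fin.cons false v) := by
  refine ⟨fun n => terms_fin, fun n v => ?_⟩
  ext m e
  rw [map_add, MvPowerSeries.coeff_C_mul, map_add, MvPowerSeries.X_def,
    MvPowerSeries.coeff_monomial_mul]
  simp only [MvPowerSeries.coeff_apply, L, terms_eq, Set.ncard_image_of_injective _ rot_inj]
  by_cases h : e 0 = 0
  · simp [h, Finsupp.single_le_iff]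
  · rw [if_neg h, if_pos (Finsupp.single_le_iff.2 (by omega)), Set.ncard_union_eq ?_
      (terms_fin _ _ _ _) (terms_fin _ _ _ _)]
    · simp
    · rw [Set.disjoint_left]
      intro p h1 h2
      have a := h1.1 0
      have b := h2.1 0
      simp at a b
      exact b a

end Pool.Agent.Results.MP_c90a8c_co.Recurrence
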